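import Pool.Agent.H23.RDD.Targets

set_option autoImplicit false

/-!
MP_c65535_nt, bounded degree, row SKP: one element for `β` and a conjugate of `β`.
-/

namespace Pool.Agent.H94.RDD

open NumberField Height Finset Polynomial Pool.Agent.H23.RDD Pool.Agent.H24.RD

section basic

variable {F Ω : Type} [Field F] [Field Ω] [Algebra F Ω]

/-- A normal subfield is preserved. -/
theorem map_mem (E : IntermediateField F Ω) [Normal F E] (κ : Ω ≃ₐ[F] Ω) (z : Ω) (hz : z ∈ E) :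
    κ z ∈ E := by
  have h := AlgEquiv.restrictNormal_commutes κ E ⟨z, hz⟩
  have h2 : κ z = ((κ.restrictNormal E) ⟨z, hz⟩ : E) := h.symm
  rw [h2]
  exact ((κ.restrictNormal E) ⟨z, hz⟩).2

theorem cj_conj (E : IntermediateField F Ω) [Normal F E] (κ : Ω ≃ₐ[F] Ω) (d : ℕ) (β : Ω)
    (h : Cj F Ω E d β) : Cj F Ω E d (κ β) := by
  classical
  obtain ⟨s, hs, h1⟩ := h
  refine ⟨s.image κ, (card_image_le).trans hs, fun σ hσ => ?_⟩
  have h2 : (κ.symm (σ (κ β))) ∈ s := by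
    have h3 := h1 ((κ.trans σ).trans κ.symm) (by
      intro z hz
      change κ.symm (σ (κ z)) = z
      rw [hσ _ (map_mem E κ z hz), AlgEquiv.symm_apply_apply])
    exact h3
  rw [mem_image]
  exact ⟨_, h2, by rw [AlgEquiv.apply_symm_apply]⟩

theorem cj_mul (E : IntermediateField F Ω) (d d' l : ℕ) (a b : Ω)
    (ha : Cj F Ω E d a) (hb : Cj F Ω E d' b) : Cj F Ω E (d * d') (a * b ^ l) := by
  classical
  obtain ⟨s, hs, h1⟩ := ha
  obtain ⟨s', hs', h1'⟩ := hb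
  refine ⟨(s ×ˢ s').image (fun x => x.1 * x.2 ^ l), ?_, fun σ hσ => ?_⟩
  · refine card_image_le.trans ?_
    rw [card_product]
    exact Nat.mul_le_mul hs hs'
  · rw [mem_image]
    refine ⟨(σ a, σ b), ?_, ?_⟩
    · rw [mem_product]
      exact ⟨h1 σ hσ, h1' σ hσ⟩
    · rw [map_mul, map_pow]

theorem roots_aux (X Y : Ω) (q l l' N : ℕ) (hll : l < l') (hN : l' ≤ N)
    (e1 : (X * Y ^ l) ^ q = 1) (e2 : (X * Y ^ l') ^ q = 1) :
    X ^ (q * N.factorial) = 1 ∧ Y ^ (q * N.factorial) = 1 := by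
  obtain ⟨D, hD⟩ : ∃ D, l' = l + D := ⟨l' - l, by omega⟩
  have hD1 : 0 < D := by omega
  have hDN : D ≤ N := by omega
  have hYD : Y ^ (q * D) = 1 := by
    rw [hD, pow_add, ← mul_assoc, mul_pow, e1, one_mul, ← pow_mul] at e2
    rw [mul_comm]
    exact e2
  have hXD : X ^ (q * D) = 1 := by
    have e3 : (X * Y ^ l) ^ (q * D) = 1 := by
      rw [pow_mul, e1, one_pow]
    rw [mul_pow, ← pow_mul Y, mul_comm l, pow_mul Y, hYD, one_pow, mul_one] at e3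
    exact e3
  obtain ⟨c, hc⟩ : D ∣ N.factorial := Nat.dvd_factorial hD1 hDN
  rw [hc, ← mul_assoc, pow_mul X (q * D), pow_mul Y (q * D), hXD, hYD, one_pow]
  exact ⟨rfl, rfl⟩

end basic

theorem skp_height (hHB : T_HB) (F Ω : Type) [Field F] [NumberField F]
    [Field Ω] [CharZero Ω] [Algebra F Ω] [Algebra.IsAlgebraic F Ω] (κ : Ω ≃ₐ[F] Ω) (β g : Ω)
    (hg : g ≠ 0) (hga : ∃ (j : ℕ) (a : F), 0 < j ∧ g ^ j = algebraMap F Ω a) (i : ℕ) :
    g * (κ g) ^ i ≠ 0 ∧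
      (∃ (j : ℕ) (a : F), 0 < j ∧ (g * (κ g) ^ i) ^ j = algebraMap F Ω a) ∧
      absLogHeight₁ ((β * (κ β) ^ i) * (g * (κ g) ^ i)) ≤ (1 + i) * absLogHeight₁ (β * g) := by
  have : Algebra.IsAlgebraic ℚ Ω := Algebra.IsAlgebraic.trans ℚ F Ω
  obtain ⟨-, hmul, -, hpw, -, hconj, -⟩ := hHB Ω
  obtain ⟨j, a, hj, hga⟩ := hga
  refine ⟨mul_ne_zero hg (pow_ne_zero _ ?_), ⟨j, a * a ^ i, hj, ?_⟩, ?_⟩
  · rw [Ne, map_eq_zero]
    exact hg
  · rw [mul_pow, ← pow_mul, mul_comm i, pow_mul, ← map_pow, hga, AlgEquiv.commutes, map_mul,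
      map_pow]
  · have e : (β * (κ β) ^ i) * (g * (κ g) ^ i) = (β * g) * (κ (β * g)) ^ i := by
      rw [map_mul, mul_pow]
      ring
    rw [e]
    refine (hmul _ _).trans ?_
    rw [hpw]
    have h3 := hconj (κ : Ω ≃+* Ω) (β * g)
    have h4 : (κ : Ω ≃+* Ω) (β * g) = κ (β * g) := rfl
    rw [h4] at h3
    rw [h3]
    linarith

/-- the pigeonhole -/
theorem pigeon {A : Type} {B : Type} [Finite A] [DecidableEq B] (T d : ℕ) (hA : Nat.card A ≤ T)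
    (s s' : Finset B) (hs : s.card ≤ d) (hs' : s'.card ≤ d) (f : Fin (T * d * d + 1) → A)
    (u u' : Fin (T * d * d + 1) → B) (hu : ∀ i, u i ∈ s) (hu' : ∀ i, u' i ∈ s') :
    ∃ i i' : Fin (T * d * d + 1), i < i' ∧ f i = f i' ∧ u i = u i' ∧ u' i = u' i' := by
  have hnot : ¬ Function.Injective (fun i => (f i, ((⟨u i, hu i⟩ : s), (⟨u' i, hu' i⟩ : s')))) := by
    intro hinj
    have h1 := Nat.card_le_card_of_injective _ hinj
    rw [Nat.card_eq_fintype_card, Fintype.card_fin, Nat.card_prod, Nat.card_prod,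
      Nat.card_eq_fintype_card (α := s), Nat.card_eq_fintype_card (α := s'), Fintype.card_coe,
      Fintype.card_coe] at h1
    have h2 : Nat.card A * (s.card * s'.card) ≤ T * (d * d) :=
      Nat.mul_le_mul hA (Nat.mul_le_mul hs hs')
    rw [mul_assoc] at h1
    omega
  rw [Function.Injective] at hnot
  push Not at hnot
  obtain ⟨a, b, hab, hne⟩ := hnot
  simp only [Prod.mk.injEq, Subtype.mk.injEq] at hab
  rcases lt_or_gt_of_ne hne with hlt | hlt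
  · exact ⟨a, b, hlt, hab.1, hab.2.1, hab.2.2⟩
  · exact ⟨b, a, hlt, hab.1.symm, hab.2.1.symm, hab.2.2.symm⟩

theorem pf_SKP : T_HB → T_LVB → T_VC → T_KEYD → T_SKP := by
  classical
  intro hHB hLVB hVC hKEYD F Ω _ _ _ _ _ _ _ p hp r γ hγ
  obtain ⟨C, hC⟩ := hKEYD F Ω p hp r γ hγ
  refine ⟨C, fun R d hd => ?_⟩
  obtain ⟨δ, lam, n0, hδ, hkey⟩ := hC R (d * d) (Nat.mul_pos hd hd)
  set T : ℕ := p ^ ((r + 1) * R) with hT
  refine ⟨δ / ((T * d * d : ℕ) + 1), n0 + R, p ^ lam * (T * d * d).factorial, by positivity,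
    Nat.mul_pos (pow_pos hp.pos _) (Nat.factorial_pos _), ?_⟩
  intro n m n1 n2 N' K' hL β hβ hCj g hg hga hh κ
  have h6 := hL.h6
  have h7 := hL.h7
  have h8 := hL.h0
  have h5 := hL.h5
  have hN0 : N' ≠ 0 := by
    rintro rfl
    exact h6 (dvd_zero p)
  have hK0 : K' ≠ 0 := by
    rintro rfl
    exact hN0 (Nat.eq_zero_of_zero_dvd h7)
  obtain ⟨hfd, hgal, hζ, hθ, hadj, -⟩ := hLVB F Ω r γ hγ (p ^ n * N') (p ^ m * K')
    (Nat.pos_of_ne_zero (mul_ne_zero (pow_ne_zero _ hp.ne_zero) hN0))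
    (Nat.pos_of_ne_zero (mul_ne_zero (pow_ne_zero _ hp.ne_zero) hK0))
  have := hfd
  have := hgal
  have : IsAlgClosure F Ω := ⟨inferInstance, inferInstance⟩
  have : Normal F Ω := IsAlgClosure.normal F Ω
  have : FiniteDimensional ℚ (Lv F Ω γ (p ^ n * N') (p ^ m * K')) :=
    FiniteDimensional.trans ℚ F _
  have : NumberField (Lv F Ω γ (p ^ n * N') (p ^ m * K')) := {}
  have hL1 : Lev C R n0 p n m n1 n2 N' K' :=
    ⟨by omega, hL.h1, hL.h2, hL.h3, hL.h4, hL.h5, hL.h6, hL.h7⟩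
  have hkey' := hkey n m n1 n2 N' K' hL1
  obtain ⟨hcard, -⟩ := hVC F (Lv F Ω γ (p ^ n * N') (p ^ m * K')) p hp r γ hγ n m n1 N' K' hL.h3
    hL.h4 (by omega) h6 h7 hζ hθ hadj
  have hcardT : Nat.card (VV F (Lv F Ω γ (p ^ n * N') (p ^ m * K')) γ p n1 K') ≤ T := by
    refine hcard.trans ?_
    rw [hT]
    exact Nat.pow_le_pow_right hp.pos (Nat.mul_le_mul_left _ (by omega))
  set E := Lv F Ω γ (p ^ n * N') (p ^ m * K') with hE
  have hCj' : Cj F Ω E d (κ β) := cj_conj E κ d β hCj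
  have hκβ : κ β ≠ 0 := by
    rw [Ne, map_eq_zero]
    exact hβ
  have hnn : ∀ x : Ω, 0 ≤ absLogHeight₁ x := by
    have : Algebra.IsAlgebraic ℚ Ω := Algebra.IsAlgebraic.trans ℚ F Ω
    exact (hHB Ω).1
  have hh0 := hnn (β * g)
  have hh1 : ((T * d * d : ℕ) + 1 : ℝ) * absLogHeight₁ (β * g) < δ := by
    have h9 : (0 : ℝ) < ((T * d * d : ℕ) + 1 : ℝ) := by positivity
    rw [lt_div_iff₀ h9, mul_comm] at hh
    exact hh
  -- an element for each exponent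
  have hall : ∀ i : Fin (T * d * d + 1), ∃ (t : VV F E γ p n1 K') (τ : Ω ≃ₐ[F] Ω),
      (∃ ξ : E, ξ ^ (p ^ n2) = 1 ∧ t.1 ξ ≠ ξ) ∧ (∀ y : E, τ (y : Ω) = (t.1 y : Ω)) ∧
      (τ (β * (κ β) ^ (i : ℕ))) ^ (p ^ lam) = (β * (κ β) ^ (i : ℕ)) ^ (p ^ lam) := by
    intro i
    obtain ⟨hg', hga', hle⟩ := skp_height hHB F Ω κ β g hg hga i
    obtain ⟨τ, t, ht1, ht2, ht3, ht4⟩ := hkey' (β * (κ β) ^ (i : ℕ))
      (mul_ne_zero hβ (pow_ne_zero _ hκβ)) (cj_mul E d d i β (κ β) hCj hCj')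
      (g * (κ g) ^ (i : ℕ)) hg' hga' (by
        refine hle.trans_lt (lt_of_le_of_lt ?_ hh1)
        apply mul_le_mul_of_nonneg_right _ hh0
        have : ((i : ℕ) : ℝ) ≤ ((T * d * d : ℕ) : ℝ) := by exact_mod_cast Nat.lt_succ_iff.1 i.2
        linarith)
    exact ⟨⟨t, ht1⟩, τ, ht2, ht3, ht4⟩
  choose f τ hf1 hf2 hf3 using hall
  obtain ⟨s, hs, hsβ⟩ := hCj
  obtain ⟨s', hs', hsβ'⟩ := hCj'
  -- the lifts
  have hfix : ∀ i, ∀ z ∈ E, (((f i).1.liftNormal Ω).symm (τ i z)) = z := by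
    intro i z hz
    have e1 : τ i z = ((f i).1 ⟨z, hz⟩ : E) := hf2 i ⟨z, hz⟩
    have e2 : (f i).1.liftNormal Ω z = ((f i).1 ⟨z, hz⟩ : E) :=
      (f i).1.liftNormal_commutes Ω ⟨z, hz⟩
    rw [e1, ← e2, AlgEquiv.symm_apply_apply]
  obtain ⟨i, i', hii, hfi, hu, hu'⟩ := pigeon T d hcardT s s' hs hs' f
    (fun i => ((f i).1.liftNormal Ω).symm (τ i β)) (fun i => ((f i).1.liftNormal Ω).symm (τ i (κ β)))
    (fun i => hsβ ((τ i).trans ((f i).1.liftNormal Ω).symm) (hfix i))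
    (fun i => hsβ' ((τ i).trans ((f i).1.liftNormal Ω).symm) (hfix i))
  have hτβ : τ i' β = τ i β := by
    have h9 : ((f i).1.liftNormal Ω).symm (τ i β) = ((f i).1.liftNormal Ω).symm (τ i' β) := by
      have h10 := hu
      rw [← hfi] at h10
      exact h10
    exact (((f i).1.liftNormal Ω).symm.injective h9).symm
  have hτκ : τ i' (κ β) = τ i (κ β) := by
    have h9 : ((f i).1.liftNormal Ω).symm (τ i (κ β)) =
        ((f i).1.liftNormal Ω).symm (τ i' (κ β)) := by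
      have h10 := hu'
      rw [← hfi] at h10
      exact h10
    exact (((f i).1.liftNormal Ω).symm.injective h9).symm
  have hXY : ∀ l : ℕ, (τ i β * (τ i (κ β)) ^ l) ^ (p ^ lam) = (β * (κ β) ^ l) ^ (p ^ lam) →
      (τ i β / β * (τ i (κ β) / κ β) ^ l) ^ (p ^ lam) = 1 := by
    intro l hl
    have e : τ i β / β * (τ i (κ β) / κ β) ^ l =
        (τ i β * (τ i (κ β)) ^ l) / (β * (κ β) ^ l) := by
      rw [div_pow, div_mul_div_comm]
    rw [e, div_pow, hl, div_self]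
    exact pow_ne_zero _ (mul_ne_zero hβ (pow_ne_zero _ hκβ))
  have e1 := hXY (i : ℕ) (by
    have h9 := hf3 i
    rw [map_mul, map_pow] at h9
    exact h9)
  have e2 := hXY (i' : ℕ) (by
    have h9 := hf3 i'
    rw [map_mul, map_pow, hτβ, hτκ] at h9
    exact h9)
  obtain ⟨hX, hY⟩ := roots_aux _ _ (p ^ lam) i i' (T * d * d) hii
    (Nat.lt_succ_iff.1 i'.2) e1 e2
  refine ⟨τ i, (f i).1, (f i).2, hf1 i, hf2 i, ?_, ?_⟩
  · rw [div_pow, div_eq_one_iff_eq (pow_ne_zero _ hβ)] at hX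
    exact hX
  · rw [div_pow, div_eq_one_iff_eq (pow_ne_zero _ hκβ)] at hY
    exact hY

end Pool.Agent.H94.RDD
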